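import Mathlib

set_option autoImplicit false

namespace Pool.Agent.KS6_69.SF

open Filter Topology Set

/-- Local supporting line. -/
def LS (f : ℝ → ℝ) (x : ℝ) : Prop := ∃ σ : ℝ, ∀ᶠ y in 𝓝 x, f x + σ * (y - x) ≤ f y

/-- Global supporting lines everywhere. -/
def GS (f : ℝ → ℝ) : Prop := ∀ x, ∃ σ : ℝ, ∀ y, f x + σ * (y - x) ≤ f y

theorem GS.ls {f : ℝ → ℝ} (h : GS f) (x : ℝ) : LS f x :=
  let ⟨σ, hσ⟩ := h x; ⟨σ, Eventually.of_forall hσ⟩

theorem LS.of_le {f g : ℝ → ℝ} {x : ℝ} (hg : LS g x) (h1 : f x = g x)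
    (h2 : ∀ᶠ y in 𝓝 x, g y ≤ f y) : LS f x := by
  obtain ⟨σ, hσ⟩ := hg
  refine ⟨σ, ?_⟩
  filter_upwards [hσ, h2] with y a b
  rw [h1]; linarith

theorem GS_of_convex {f : ℝ → ℝ} (hf : ConvexOn ℝ univ f) : GS f := by
  intro x
  have key : ∀ u < x, ∀ w, x < w → (f x - f u) / (x - u) ≤ (f w - f x) / (w - x) :=
    fun u hu w hw => hf.slope_mono_adjacent (mem_univ u) (mem_univ w) hu hw
  set S : Set ℝ := {s | ∃ u < x, s = (f x - f u) / (x - u)} with hS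
  have hne : S.Nonempty := ⟨_, x - 1, by linarith, rfl⟩
  have hb : BddAbove S := ⟨_, by rintro s ⟨u, hu, rfl⟩; exact key u hu (x + 1) (by linarith)⟩
  refine ⟨sSup S, fun y => ?_⟩
  rcases lt_trichotomy y x with h | h | h
  · have := le_csSup hb (show (f x - f y) / (x - y) ∈ S from ⟨y, h, rfl⟩)
    rw [div_le_iff₀ (by linarith)] at this
    linarith
  · simp [h]
  · have : sSup S ≤ (f y - f x) / (y - x) :=
      csSup_le hne (by rintro s ⟨u, hu, rfl⟩; exact key u hu y h)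
    rw [le_div_iff₀ (by linarith)] at this
    linarith

theorem chord {lo u t s : ℝ} (h1 : lo ≤ t) (h2 : t ≤ u) (hu : 0 < 1 - u * s) (hl : 0 < 1 - lo * s) :
    0 < 1 - t * s ∧
      (u - lo) * (1 - t * s)⁻¹ ≤ (u - t) * (1 - lo * s)⁻¹ + (t - lo) * (1 - u * s)⁻¹ := by
  have h0 : 0 < 1 - t * s := by
    rcases le_total 0 s with h | h <;> nlinarith
  refine ⟨h0, ?_⟩
  have : (u - t) * (1 - lo * s)⁻¹ + (t - lo) * (1 - u * s)⁻¹ - (u - lo) * (1 - t * s)⁻¹ =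
      (u - t) * (t - lo) * (u - lo) * s ^ 2 * ((1 - lo * s)⁻¹ * (1 - u * s)⁻¹ * (1 - t * s)⁻¹) := by
    field_simp; ring
  have h3 : 0 ≤ (u - t) * (t - lo) * (u - lo) * s ^ 2 *
      ((1 - lo * s)⁻¹ * (1 - u * s)⁻¹ * (1 - t * s)⁻¹) := by
    have : 0 ≤ u - t := by linarith
    have : 0 ≤ t - lo := by linarith
    have : 0 ≤ u - lo := by linarith
    positivity
  linarith

theorem cvx_order {r0 s0 r f z w u lo s : ℝ} (hr0 : 0 < r0) (hs0 : 0 < s0)
    (e1 : r0 + s0 = r + f) (e2 : r0 * z + s0 * w = r * u + f * lo)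
    (h1 : lo ≤ z) (h2 : z ≤ u) (h3 : lo ≤ w) (h4 : w < u)
    (hu : 0 < 1 - u * s) (hl : 0 < 1 - lo * s) :
    r0 * (1 - z * s)⁻¹ + s0 * (1 - w * s)⁻¹ ≤ r * (1 - u * s)⁻¹ + f * (1 - lo * s)⁻¹ := by
  have a := (chord h1 h2 hu hl).2
  have b := (chord h3 h4.le hu hl).2
  have hd : 0 < u - lo := by linarith
  have a' := mul_le_mul_of_nonneg_left a hr0.le
  have b' := mul_le_mul_of_nonneg_left b hs0.le
  refine le_of_mul_le_mul_left ?_ hd
  have e3 : r0 * (u - z) + s0 * (u - w) = f * (u - lo) := by linear_combination u * e1 - e2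
  have e4 : r0 * (z - lo) + s0 * (w - lo) = r * (u - lo) := by linear_combination e2 - lo * e1
  have : r0 * ((u - z) * (1 - lo * s)⁻¹ + (z - lo) * (1 - u * s)⁻¹) +
      s0 * ((u - w) * (1 - lo * s)⁻¹ + (w - lo) * (1 - u * s)⁻¹) =
      (u - lo) * (r * (1 - u * s)⁻¹ + f * (1 - lo * s)⁻¹) := by
    linear_combination (1 - lo * s)⁻¹ * e3 + (1 - u * s)⁻¹ * e4
  nlinarith

theorem lo_le {r0 s0 r z w u : ℝ} (b1 : 16 / 100 ≤ r0) (b2 : 0 < s0) (b2' : s0 ≤ 21 / 100)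
    (b3 : r0 ≤ r) (c1 : z ≤ u) (c2 : 16 / 100 ≤ u) (c3 : w ≤ 1 / 100) (c4 : -(1 / 100) ≤ z) :
    r0 * z + s0 * w - r * u ≤ w * (r0 + s0 - r) ∧ r0 * z + s0 * w - r * u ≤ z * (r0 + s0 - r) := by
  constructor
  · have h1 : r0 * (z - w) ≤ r0 * (u - w) := mul_le_mul_of_nonneg_left (by linarith) (by linarith)
    have h2 : r0 * (u - w) ≤ r * (u - w) := mul_le_mul_of_nonneg_right b3 (by linarith)
    linarith
  · have : s0 * (w - z) ≤ r * (u - z) := by
      rcases le_total w z with h | h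
      · have h1 : s0 * (w - z) ≤ 0 := mul_nonpos_of_nonneg_of_nonpos b2.le (by linarith)
        have h2 : 0 ≤ r * (u - z) := mul_nonneg (by linarith) (by linarith)
        linarith
      · have h1 : s0 * (w - z) ≤ 21 / 100 * (2 / 100) :=
          mul_le_mul b2' (by linarith) (by linarith) (by norm_num)
        have h2 : 16 / 100 * (15 / 100) ≤ r * (u - z) :=
          mul_le_mul (by linarith) (by linarith) (by norm_num) (by linarith)
        linarith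
    linarith

/-- The key inequality: a supporting line for `(1/h + 1/k - 1/l)⁻¹`. -/
theorem slack {h0 k0 l0 α a b : ℝ} (hh : 59 / 10 ≤ h0) (hh' : h0 ≤ 62 / 10) (hk : 49 / 10 ≤ k0)
    (hk' : k0 ≤ 51 / 10) (hl : 5 ≤ l0) (hl' : l0 ≤ h0) (hα : 1 ≤ α)
    (ha : -α ≤ a) (ha' : a ≤ 1 / 100) (hb : -(1 / 100) ≤ b) :
    ∃ σ : ℝ, ∀ s H K : ℝ, h0 + a * s ≤ H → k0 + b * s ≤ K → 0 < l0 - α * s →
      0 < H⁻¹ + K⁻¹ - (l0 - α * s)⁻¹ →
      (h0⁻¹ + k0⁻¹ - l0⁻¹)⁻¹ + σ * s ≤ (H⁻¹ + K⁻¹ - (l0 - α * s)⁻¹)⁻¹ := by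
  have p1 : 0 < h0 := by linarith
  have p2 : 0 < k0 := by linarith
  have p3 : 0 < l0 := by linarith
  set r0 := h0⁻¹ with hr0
  set s0 := k0⁻¹ with hs0
  set r := l0⁻¹ with hr
  have q1 : r0 * h0 = 1 := inv_mul_cancel₀ p1.ne'
  have q2 : s0 * k0 = 1 := inv_mul_cancel₀ p2.ne'
  have q3 : r * l0 = 1 := inv_mul_cancel₀ p3.ne'
  have r0p : 0 < r0 := inv_pos.2 p1
  have s0p : 0 < s0 := inv_pos.2 p2
  have b1 : 16 / 100 ≤ r0 := by nlinarith
  have b1' : r0 ≤ 17 / 100 := by nlinarith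
  have b2 : 19 / 100 ≤ s0 := by nlinarith
  have b2' : s0 ≤ 21 / 100 := by nlinarith
  have b3 : r0 ≤ r := inv_anti₀ p3 hl'
  have b3' : r ≤ 1 / 5 := by nlinarith
  set f := r0 + s0 - r with hf
  have fp : 0 < f := by linarith
  set z := -a * r0 with hz
  set w := -b * s0 with hw
  set u := α * r with hu
  set lo := (r0 * z + s0 * w - r * u) / f with hlo
  have e2 : r0 * z + s0 * w = r * u + f * lo := by rw [hlo]; field_simp; ring
  have c1 : z ≤ u := (mul_le_mul_of_nonneg_right (by linarith : -a ≤ α) r0p.le).trans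
    (mul_le_mul_of_nonneg_left b3 (by linarith))
  have c2 : 16 / 100 ≤ u := by
    have := mul_le_mul hα (b1.trans b3) (by norm_num) (by linarith)
    linarith
  have c3 : w ≤ 1 / 100 := by
    have := mul_le_mul (by linarith : -b ≤ 1 / 100) b2' s0p.le (by norm_num)
    linarith
  have c4 : -(1 / 100) ≤ z := by
    have := mul_le_mul ha' b1' r0p.le (by norm_num)
    linarith
  have c5 : lo ≤ w := by
    rw [hlo, div_le_iff₀ fp]
    exact (lo_le b1 s0p b2' b3 c1 c2 c3 c4).1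
  have c6 : lo ≤ z := by
    rw [hlo, div_le_iff₀ fp]
    exact (lo_le b1 s0p b2' b3 c1 c2 c3 c4).2
  refine ⟨-lo / f, fun s H K hH hK hls hF => ?_⟩
  have e0 : f⁻¹ + -lo / f * s = (1 - lo * s) / f := by field_simp; ring
  rw [e0]
  by_cases hlo' : 1 - lo * s ≤ 0
  · exact (div_nonpos_of_nonpos_of_nonneg hlo' fp.le).trans (inv_pos.2 hF).le
  push Not at hlo'
  have g3 : l0 - α * s = l0 * (1 - u * s) := by rw [hu]; linear_combination (α * s) * q3
  have hus : 0 < 1 - u * s := by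
    rw [g3] at hls
    exact (mul_pos_iff_of_pos_left p3).1 hls
  have g1 : h0 + a * s = h0 * (1 - z * s) := by rw [hz]; linear_combination (-a * s) * q1
  have g2 : k0 + b * s = k0 * (1 - w * s) := by rw [hw]; linear_combination (-b * s) * q2
  have hzs := (chord c6 c1 hus hlo').1
  have hws := (chord c5 (by linarith) hus hlo').1
  have m := cvx_order r0p s0p (by rw [hf]; ring) e2 c6 c1 c5 (by linarith) hus hlo'
  have m1 : H⁻¹ ≤ r0 * (1 - z * s)⁻¹ := by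
    rw [hr0, ← mul_inv, ← g1]
    exact inv_anti₀ (by rw [g1]; positivity) hH
  have m2 : K⁻¹ ≤ s0 * (1 - w * s)⁻¹ := by
    rw [hs0, ← mul_inv, ← g2]
    exact inv_anti₀ (by rw [g2]; positivity) hK
  have m3 : (l0 - α * s)⁻¹ = r * (1 - u * s)⁻¹ := by rw [g3, mul_inv]
  have m4 : (1 - lo * s) / f = (f * (1 - lo * s)⁻¹)⁻¹ := by field_simp
  rw [m4]
  exact inv_anti₀ hF (by linarith)

/-- A continuous function with local supporting lines lies below its chords. -/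
theorem chord_of_LS {f : ℝ → ℝ} (hc : Continuous f) (h : ∀ x, LS f x) {t : ℝ} (h0 : 0 ≤ t)
    (h1 : t ≤ 1) : f t ≤ (1 - t) * f 0 + t * f 1 := by
  set g : ℝ → ℝ := fun x => f x - ((1 - x) * f 0 + x * f 1) with hg
  have hgc : Continuous g := by fun_prop
  by_contra hcon
  have hpos : 0 < g t := by simp only [hg]; linarith
  obtain ⟨x, hx, hmax⟩ := (isCompact_Icc (a := (0 : ℝ)) (b := 1)).exists_isMaxOn
    ⟨t, h0, h1⟩ hgc.continuousOn
  have hk : IsCompact (Icc (0 : ℝ) 1 ∩ {y | g y = g x}) :=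
    isCompact_Icc.inter_right (isClosed_eq hgc continuous_const)
  obtain ⟨y, hy, hy'⟩ := hk.exists_isGreatest ⟨x, hx, rfl⟩
  have hyx : g y = g x := hy.2
  have hxt : g t ≤ g x := hmax ⟨h0, h1⟩
  have hy0 : 0 < y := lt_of_le_of_ne hy.1.1 (by
    rintro rfl
    simp only [hg] at hyx hxt hpos
    linarith)
  have hy1 : y < 1 := lt_of_le_of_ne hy.1.2 (by
    rintro rfl
    simp only [hg] at hyx hxt hpos
    linarith)
  obtain ⟨σ, hσ⟩ := h y
  have hev : ∀ᶠ z in 𝓝 y, (f y + σ * (z - y) ≤ f z) ∧ z ∈ Ioo (0 : ℝ) 1 :=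
    hσ.and (Ioo_mem_nhds hy0 hy1)
  obtain ⟨δ, hδ, hb⟩ := Metric.eventually_nhds_iff.1 hev
  have a1 := @hb (y + δ / 2) (by rw [Real.dist_eq, abs_lt]; constructor <;> linarith)
  have a2 := @hb (y - δ / 2) (by rw [Real.dist_eq, abs_lt]; constructor <;> linarith)
  have b1 : g (y + δ / 2) ≤ g x := hmax ⟨a1.2.1.le, a1.2.2.le⟩
  have b2 : g (y - δ / 2) ≤ g x := hmax ⟨a2.2.1.le, a2.2.2.le⟩
  have b3 : g (y + δ / 2) = g x := by
    have c1 := a1.1
    have c2 := a2.1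
    simp only [hg] at b1 b2 hyx ⊢
    linarith
  have := hy' ⟨⟨a1.2.1.le, a1.2.2.le⟩, b3⟩
  linarith

end Pool.Agent.KS6_69.SF
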