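import Pool.Agent.KS6_69.SF.Sec1

set_option autoImplicit false

namespace Pool.Agent.KS6_69.SF

open Filter Topology Set

/-- The pair `h, k` is close to the model pair `max 6 (5 + 2|x|)`, `5`. -/
structure Near (h k : ℝ → ℝ) : Prop where
  ch : Continuous h
  ck : Continuous k
  gh : GS h
  gk : GS k
  ph : ∀ x, 0 < h x
  pk : ∀ x, 0 < k x
  h1 : ∀ x, -1 ≤ x → x ≤ 1 → 6 - 1 / 10000 ≤ h x
  h2 : ∀ x, -1 ≤ x → x ≤ 1 → 5 + 2 * x - 1 / 10000 ≤ h x
  h3 : ∀ x, -1 ≤ x → x ≤ 1 → 5 - 2 * x - 1 / 10000 ≤ h x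
  h4 : ∀ x, -(1 / 2) ≤ x → x ≤ 1 / 2 → h x ≤ 6 + 1 / 10000
  h5 : ∀ x, -(11 / 20) ≤ x → x ≤ 11 / 20 → h x ≤ 62 / 10
  k1 : ∀ x, -(3 / 5) ≤ x → x ≤ 3 / 5 → 5 - 1 / 10000 ≤ k x
  k2 : ∀ x, -(3 / 5) ≤ x → x ≤ 3 / 5 → k x ≤ 5 + 1 / 10000

theorem GS.neg {f : ℝ → ℝ} (h : GS f) : GS fun x => f (-x) := by
  intro x
  obtain ⟨σ, hσ⟩ := h (-x)
  exact ⟨-σ, fun y => by have := hσ (-y); linarith⟩

theorem LS.neg {f : ℝ → ℝ} {x : ℝ} (h : LS f (-x)) : LS (fun y => f (-y)) x := by
  obtain ⟨σ, hσ⟩ := h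
  refine ⟨-σ, ?_⟩
  have := (continuous_neg.tendsto x).eventually hσ
  filter_upwards [this] with y hy
  linarith

theorem Near.neg {h k : ℝ → ℝ} (n : Near h k) : Near (fun x => h (-x)) (fun x => k (-x)) where
  ch := n.ch.comp continuous_neg
  ck := n.ck.comp continuous_neg
  gh := n.gh.neg
  gk := n.gk.neg
  ph := fun x => n.ph _
  pk := fun x => n.pk _
  h1 := fun x a b => n.h1 _ (by linarith) (by linarith)
  h2 := fun x a b => by have := n.h3 (-x) (by linarith) (by linarith); linarith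
  h3 := fun x a b => by have := n.h2 (-x) (by linarith) (by linarith); linarith
  h4 := fun x a b => n.h4 _ (by linarith) (by linarith)
  h5 := fun x a b => n.h5 _ (by linarith) (by linarith)
  k1 := fun x a b => n.k1 _ (by linarith) (by linarith)
  k2 := fun x a b => n.k2 _ (by linarith) (by linarith)

theorem exists_min {f : ℝ → ℝ} (hf : Continuous f) {a b : ℝ} (hab : a ≤ b) (α : ℝ) :
    ∃ t ∈ Icc a b, f t + α * t = sInf ((fun y => f y + α * y) '' Icc a b) ∧
      ∀ y ∈ Icc a b, f t + α * t ≤ f y + α * y := by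
  obtain ⟨t, ht, h1, h2⟩ := (isCompact_Icc (a := a) (b := b)).exists_sInf_image_eq_and_le
    (f := fun y => f y + α * y) ⟨a, le_rfl, hab⟩ (by fun_prop)
  exact ⟨t, ht, h1.symm, h2⟩

theorem Near.tangent {h k : ℝ → ℝ} (n : Near h k) {α t : ℝ} (h1 : 1 ≤ α) (h2 : α ≤ 5 / 4)
    (ht : t ∈ Icc (-1 : ℝ) 1) (hm : ∀ y ∈ Icc (-1 : ℝ) 1, h t + α * t ≤ h y + α * y) :
    -(11 / 20) ≤ t ∧ t ≤ -(9 / 20) ∧ 6 - α / 2 - 1 / 10000 ≤ h t + α * t ∧
      h t + α * t ≤ 6 - α / 2 + 1 / 10000 := by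
  have a1 := hm (-(1 / 2)) ⟨by norm_num, by norm_num⟩
  have a2 := n.h4 (-(1 / 2)) (by norm_num) (by norm_num)
  have a3 := n.h1 t ht.1 ht.2
  have a4 := n.h3 t ht.1 ht.2
  refine ⟨?_, ?_, ?_, by linarith⟩
  · by_contra hc
    push Not at hc
    have : (2 - α) * (-t - 1 / 2) ≥ 3 / 4 * (1 / 20) :=
      mul_le_mul (by linarith) (by linarith) (by norm_num) (by linarith)
    nlinarith
  · by_contra hc
    push Not at hc
    have : α * (t + 1 / 2) ≥ 1 * (1 / 20) :=
      mul_le_mul (by linarith) (by linarith) (by norm_num) (by linarith)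
    nlinarith
  · rcases le_total t (-(1 / 2)) with hc | hc
    · have : 0 ≤ (2 - α) * (-t - 1 / 2) := mul_nonneg (by linarith) (by linarith)
      nlinarith
    · have : 0 ≤ α * (t + 1 / 2) := mul_nonneg (by linarith) (by linarith)
      nlinarith

theorem Near.side {h k : ℝ → ℝ} (n : Near h k) {α t : ℝ} (h1 : 1 ≤ α) (h2 : α ≤ 5 / 4)
    (ht : t ∈ Icc (-1 : ℝ) 1) (hm : ∀ y ∈ Icc (-1 : ℝ) 1, h t + α * t ≤ h y + α * y) :
    ∃ G : ℝ → ℝ, Continuous G ∧
      (∀ x, -(11 / 20) ≤ x → x ≤ 1 / 4 → 0 < G x ∧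
        (G x)⁻¹ = (h x)⁻¹ + (k x)⁻¹ - (h t + α * t - α * x)⁻¹) ∧
      ∀ x, t < x → x < 1 / 4 → LS G x := by
  obtain ⟨t1, t2, t3, t4⟩ := n.tangent h1 h2 ht hm
  set m := h t + α * t with hmdef
  have hl : ∀ x, x ≤ 1 / 4 → 5 ≤ m - α * x := by
    intro x hx
    have : α * x ≤ α * (1 / 4) := mul_le_mul_of_nonneg_left hx (by linarith)
    linarith
  have hF : ∀ x, -(11 / 20) ≤ x → x ≤ 1 / 4 → 0 < (h x)⁻¹ + (k x)⁻¹ - (m - α * x)⁻¹ := by
    intro x a b
    have e1 : (62 / 10 : ℝ)⁻¹ ≤ (h x)⁻¹ := inv_anti₀ (n.ph x) (n.h5 x a (by linarith))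
    have e2 : (51 / 10 : ℝ)⁻¹ ≤ (k x)⁻¹ :=
      inv_anti₀ (n.pk x) ((n.k2 x (by linarith) (by linarith)).trans (by norm_num))
    have e3 : (m - α * x)⁻¹ ≤ (5 : ℝ)⁻¹ := inv_anti₀ (by norm_num) (hl x b)
    norm_num at e1 e2 e3 ⊢
    linarith
  set cl : ℝ → ℝ := fun x => max (-(11 / 20)) (min x (1 / 4)) with hcl
  have hc1 : ∀ x, -(11 / 20) ≤ cl x := fun x => le_max_left _ _
  have hc2 : ∀ x, cl x ≤ 1 / 4 := fun x => max_le (by norm_num) (min_le_right _ _)
  have hc3 : ∀ x, -(11 / 20) ≤ x → x ≤ 1 / 4 → cl x = x := by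
    intro x a b
    simp only [hcl]
    rw [min_eq_left b, max_eq_right a]
  have hcc : Continuous cl := by fun_prop
  refine ⟨fun x => ((h (cl x))⁻¹ + (k (cl x))⁻¹ - (m - α * cl x)⁻¹)⁻¹, ?_, ?_, ?_⟩
  · refine Continuous.inv₀ (Continuous.sub (Continuous.add ?_ ?_) ?_)
      fun x => (hF _ (hc1 x) (hc2 x)).ne'
    · exact (n.ch.comp hcc).inv₀ fun x => (n.ph _).ne'
    · exact (n.ck.comp hcc).inv₀ fun x => (n.pk _).ne'
    · exact (continuous_const.sub (continuous_const.mul hcc)).inv₀ fun x => by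
        have := hl _ (hc2 x)
        show m - α * cl x ≠ 0
        intro e; linarith
  · intro x a b
    simp only [hc3 x a b, inv_inv]
    exact ⟨inv_pos.2 (hF x a b), trivial⟩
  · intro x a b
    obtain ⟨σ1, hσ1⟩ := n.gh x
    obtain ⟨σ2, hσ2⟩ := n.gk x
    have xl : -(11 / 20) < x := by linarith
    have b1 := n.h1 x (by linarith) (by linarith)
    have b2 := n.k1 x (by linarith) (by linarith)
    have b3 := n.k2 x (by linarith) (by linarith)
    have b4 := hm x ⟨by linarith, by linarith⟩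
    have s1 : -α ≤ σ1 := by
      have := hσ1 t
      by_contra hc
      push Not at hc
      have : 0 < (-α - σ1) * (x - t) := mul_pos (by linarith) (by linarith)
      nlinarith
    have s2 : σ1 ≤ 1 / 100 := by
      have e1 := hσ1 (1 / 2)
      have e2 := n.h4 (1 / 2) (by norm_num) (by norm_num)
      by_contra hc
      push Not at hc
      have : 1 / 100 * (1 / 4) ≤ σ1 * (1 / 2 - x) :=
        mul_le_mul hc.le (by linarith) (by norm_num) (by linarith)
      linarith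
    have s3 : -(1 / 100) ≤ σ2 := by
      have e1 := hσ2 (3 / 5)
      have e2 := hσ2 (-(3 / 5))
      have e3 := n.k2 (-(3 / 5)) (by norm_num) (by norm_num)
      by_contra hc
      push Not at hc
      have : 1 / 100 * (1 / 20) ≤ -σ2 * (x + 3 / 5) :=
        mul_le_mul (by linarith) (by linarith) (by norm_num) (by linarith)
      nlinarith
    obtain ⟨σ, hσ⟩ := slack (h0 := h x) (k0 := k x) (l0 := m - α * x) (α := α) (a := σ1) (b := σ2)
      (by linarith) (n.h5 x xl.le (by linarith)) (by linarith) (by linarith) (hl x b.le)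
      (by linarith) h1 s1 s2 s3
    refine ⟨σ, ?_⟩
    filter_upwards [Ioo_mem_nhds xl b] with y hy
    have e : m - α * x - α * (y - x) = m - α * y := by ring
    have := hσ (y - x) (h y) (k y) (hσ1 y) (hσ2 y) (by have := hl y hy.2.le; linarith)
      (by rw [e]; exact hF y hy.1.le hy.2.le)
    rw [e] at this
    simp only [hc3 x xl.le b.le, hc3 y hy.1.le hy.2.le]
    exact this

theorem LS_affine (c α x : ℝ) : LS (fun y => c + α * y) x :=
  ⟨α, Eventually.of_forall fun y => by linarith⟩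

theorem inv_le_inv_iff' {a b : ℝ} (ha : 0 < a) (hb : 0 < b) (h : a⁻¹ ≤ b⁻¹) : b ≤ a :=
  (inv_le_inv₀ ha hb).1 h

/-- The common tangent. -/
theorem Near.common {h k R : ℝ → ℝ} (n : Near h k) (hR : Continuous R) {β c : ℝ}
    (b1 : 12 / 11 - 1 / 10000 ≤ β) (b2 : β ≤ 12 / 11 + 1 / 10000)
    (c1 : 60 / 11 - 2 / 10000 ≤ c) (c2 : c ≤ 60 / 11 + 2 / 10000)
    (hR' : ∀ x, -(1 / 4) ≤ x → x ≤ 1 / 4 → 0 < R x ∧
      (R x)⁻¹ = (h x)⁻¹ + (k x)⁻¹ - (c + β * x)⁻¹) :
    ∃ α t m : ℝ, 1 ≤ α ∧ α ≤ 5 / 4 ∧ t ∈ Icc (-1 : ℝ) 1 ∧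
      (∀ y ∈ Icc (-1 : ℝ) 1, h t + α * t ≤ h y + α * y) ∧ -(1 / 4) < m ∧ m < 1 / 4 ∧
      R m + α * m = h t + α * t ∧ ∀ y ∈ Icc (-(1 / 4) : ℝ) (1 / 4), R m + α * m ≤ R y + α * y := by
  have up : ∀ x, -(1 / 4) ≤ x → x ≤ 1 / 4 →
      (R x)⁻¹ ≤ 36668 / 100000 - (5455 / 1000 + 12 / 11 * x)⁻¹ := by
    intro x a b
    rw [(hR' x a b).2]
    have e1 : (h x)⁻¹ ≤ (6 - 1 / 10000 : ℝ)⁻¹ :=
      inv_anti₀ (by norm_num) (n.h1 x (by linarith) (by linarith))
    have e2 : (k x)⁻¹ ≤ (5 - 1 / 10000 : ℝ)⁻¹ :=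
      inv_anti₀ (by norm_num) (n.k1 x (by linarith) (by linarith))
    have e4 : (β - 12 / 11) * x ≤ 1 / 10000 * (1 / 4) :=
      (abs_le.1 ((abs_mul (β - 12 / 11) x).le.trans (mul_le_mul (abs_le.2 ⟨by linarith, by linarith⟩)
        (abs_le.2 ⟨a, b⟩) (abs_nonneg _) (by norm_num)))).2
    have e5 : β * x ≥ -(β / 4) := by nlinarith
    have e3 : (5455 / 1000 + 12 / 11 * x)⁻¹ ≤ (c + β * x)⁻¹ :=
      inv_anti₀ (by linarith) (by linarith)
    norm_num at e1 e2
    linarith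
  have R0 : R 0 ≤ 546 / 100 := by
    have e0 := hR' 0 (by norm_num) (by norm_num)
    refine inv_le_inv_iff' (by norm_num) e0.1 ?_
    rw [e0.2]
    have e1 : (6 + 1 / 10000 : ℝ)⁻¹ ≤ (h 0)⁻¹ :=
      inv_anti₀ (n.ph _) (n.h4 0 (by norm_num) (by norm_num))
    have e2 : (5 + 1 / 10000 : ℝ)⁻¹ ≤ (k 0)⁻¹ :=
      inv_anti₀ (n.pk _) (n.k2 0 (by norm_num) (by norm_num))
    have e3 : (c + β * 0)⁻¹ ≤ (60 / 11 - 2 / 10000 : ℝ)⁻¹ :=
      inv_anti₀ (by norm_num) (by linarith)
    norm_num at e1 e2 e3 ⊢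
    linarith
  have R1 : 52 / 10 ≤ R (1 / 4) := by
    refine inv_le_inv_iff' (hR' _ (by norm_num) (by norm_num)).1 (by norm_num) ?_
    refine (up _ (by norm_num) (by norm_num)).trans (by norm_num)
  have R2 : 5755 / 1000 ≤ R (-(1 / 4)) := by
    refine inv_le_inv_iff' (hR' _ (by norm_num) (by norm_num)).1 (by norm_num) ?_
    refine (up _ (by norm_num) (by norm_num)).trans (by norm_num)
  have R3 : ∀ x, -(1 / 4) ≤ x → x ≤ 1 / 4 → 538 / 100 - 5 / 4 * x ≤ R x := by
    intro x a b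
    refine inv_le_inv_iff' (hR' x a b).1 (by linarith) ((up x a b).trans ?_)
    have p1 : 0 < 538 / 100 - 5 / 4 * x := by linarith
    have p2 : 0 < 5455 / 1000 + 12 / 11 * x := by linarith
    rw [sub_le_iff_le_add, inv_add_inv p1.ne' p2.ne', le_div_iff₀ (mul_pos p1 p2)]
    nlinarith [sq_nonneg (538 / 100 - 5 / 4 * x - (5455 / 1000 + 12 / 11 * x))]
  set φ : ℝ → ℝ := fun α => sInf ((fun y => h y + α * y) '' Icc (-1) 1) -
    sInf ((fun y => R y + α * y) '' Icc (-(1 / 4)) (1 / 4)) with hφ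
  have hφc : Continuous φ := by
    have := n.ch
    refine Continuous.sub ?_ ?_
    · exact isCompact_Icc.continuous_sInf (f := fun α y => h y + α * y) (by fun_prop)
    · exact isCompact_Icc.continuous_sInf (f := fun α y => R y + α * y) (by fun_prop)
  have f1 : 0 ≤ φ 1 := by
    obtain ⟨t, ht, e1, e2⟩ := exists_min n.ch (by norm_num : (-1 : ℝ) ≤ 1) 1
    obtain ⟨m, hm, e3, e4⟩ := exists_min hR (by norm_num : (-(1 / 4) : ℝ) ≤ 1 / 4) 1
    have := n.tangent le_rfl (by norm_num) ht e2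
    have := e4 0 ⟨by norm_num, by norm_num⟩
    simp only [hφ]
    rw [← e1, ← e3]
    linarith
  have f2 : φ (5 / 4) ≤ 0 := by
    obtain ⟨t, ht, e1, e2⟩ := exists_min n.ch (by norm_num : (-1 : ℝ) ≤ 1) (5 / 4)
    obtain ⟨m, hm, e3, e4⟩ := exists_min hR (by norm_num : (-(1 / 4) : ℝ) ≤ 1 / 4) (5 / 4)
    have := n.tangent (by norm_num) le_rfl ht e2
    have := R3 m hm.1 hm.2
    simp only [hφ]
    rw [← e1, ← e3]
    linarith
  obtain ⟨α, hα, h0⟩ := intermediate_value_Icc' (by norm_num : (1 : ℝ) ≤ 5 / 4) hφc.continuousOn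
    ⟨f2, f1⟩
  obtain ⟨t, ht, e1, e2⟩ := exists_min n.ch (by norm_num : (-1 : ℝ) ≤ 1) α
  obtain ⟨m, hm, e3, e4⟩ := exists_min hR (by norm_num : (-(1 / 4) : ℝ) ≤ 1 / 4) α
  have e5 : R m + α * m = h t + α * t := by
    simp only [hφ] at h0
    rw [← e1, ← e3] at h0
    linarith
  have b := n.tangent hα.1 hα.2 ht e2
  have b0 := e4 0 ⟨by norm_num, by norm_num⟩
  refine ⟨α, t, m, hα.1, hα.2, ht, e2, lt_of_le_of_ne hm.1 ?_, lt_of_le_of_ne hm.2 ?_, e5, e4⟩
  · rintro rfl
    linarith [hα.1]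
  · rintro rfl
    linarith [hα.1]

/-- The transition from the pair `h, k` to the pair `k, h` keeping the sum of reciprocals. -/
theorem Near.transition {h k : ℝ → ℝ} (n : Near h k) {β : ℝ}
    (q1 : 12 / 11 - 1 / 10000 ≤ β) (q2 : β ≤ 12 / 11 + 1 / 10000) :
    ∃ H K : ℝ → ℝ, Continuous H ∧ Continuous K ∧ (∀ x, LS H x) ∧ (∀ x, LS K x) ∧
      (∀ x, 0 < H x) ∧ (∀ x, 0 < K x) ∧ (∀ x, (H x)⁻¹ + (K x)⁻¹ = (h x)⁻¹ + (k x)⁻¹) ∧
      (∀ x, x ≤ -(3 / 5) → H x = h x ∧ K x = k x) ∧ (∀ x, 3 / 5 ≤ x → H x = k x ∧ K x = h x) ∧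
      ∃ c : ℝ, ∀ x, 1 / 4 ≤ x → x ≤ 9 / 20 → K x = c + β * x := by
  obtain ⟨s, hs, -, hsm⟩ := exists_min n.neg.ch (by norm_num : (-1 : ℝ) ≤ 1) β
  obtain ⟨s1, s2, s3, s4⟩ := n.neg.tangent (by linarith) (by linarith) hs hsm
  obtain ⟨G', G1, G2, G3⟩ := n.neg.side (by linarith) (by linarith) hs hsm
  set c := h (-s) + β * s with hc
  set R : ℝ → ℝ := fun x => G' (-x) with hRdef
  have Rc : Continuous R := G1.comp continuous_neg
  have R2 : ∀ x, -(1 / 4) ≤ x → x ≤ 11 / 20 → 0 < R x ∧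
      (R x)⁻¹ = (h x)⁻¹ + (k x)⁻¹ - (c + β * x)⁻¹ := by
    intro x a b
    have := G2 (-x) (by linarith) (by linarith)
    simp only [neg_neg] at this
    refine ⟨this.1, this.2.trans ?_⟩
    congr 2; ring
  have R3 : ∀ x, -(1 / 4) < x → x < -s → LS R x := fun x a b =>
    (G3 (-x) (by linarith) (by linarith)).neg
  have l2 : ∀ y, -1 ≤ y → y ≤ 1 → c + β * y ≤ h y := by
    intro y a b
    have := hsm (-y) ⟨by linarith, by linarith⟩
    simp only [neg_neg] at this
    linarith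
  have l2p : ∀ y, -(1 / 4) ≤ y → 0 < c + β * y := fun y a => by
    have : β * y ≥ β * (-(1 / 4)) := mul_le_mul_of_nonneg_left a (by linarith)
    linarith
  obtain ⟨α, t, m, a1, a2, ht, htm, m1, m2, e5, e4⟩ := n.common Rc (c := c) q1 q2 (by linarith)
    (by linarith) fun x a b => R2 x a (by linarith)
  obtain ⟨t1, t2, t3, t4⟩ := n.tangent a1 a2 ht htm
  obtain ⟨G, Gc, G5, G6⟩ := n.side a1 a2 ht htm
  set d := h t + α * t with hd
  have l1 : ∀ y, -1 ≤ y → y ≤ 1 → d - α * y ≤ h y := fun y a b => by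
    have := htm y ⟨a, b⟩; linarith
  have l1p : ∀ y, y ≤ 1 / 4 → 0 < d - α * y := fun y a => by
    have : α * y ≤ α * (1 / 4) := mul_le_mul_of_nonneg_left a (by linarith)
    linarith
  have l1R : ∀ y, -(1 / 4) ≤ y → y ≤ 1 / 4 → d - α * y ≤ R y := fun y a b => by
    have := e4 y ⟨a, b⟩; linarith
  have kG : ∀ y, -(11 / 20) ≤ y → y ≤ 1 / 4 → k y ≤ G y := fun y a b => by
    refine inv_le_inv_iff' (G5 y a b).1 (n.pk y) ?_
    have := inv_anti₀ (l1p y b) (l1 y (by linarith) (by linarith))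
    rw [(G5 y a b).2]; linarith
  have kR : ∀ y, -(1 / 4) ≤ y → y ≤ 11 / 20 → k y ≤ R y := fun y a b => by
    refine inv_le_inv_iff' (R2 y a b).1 (n.pk y) ?_
    have := inv_anti₀ (l2p y a) (l2 y (by linarith) (by linarith))
    rw [(R2 y a b).2]; linarith
  have l2G : ∀ y, -(1 / 4) ≤ y → y ≤ 1 / 4 → c + β * y ≤ G y := fun y a b => by
    refine inv_le_inv_iff' (G5 y (by linarith) b).1 (l2p y a) ?_
    have := inv_anti₀ (l1p y b) (l1R y a b)
    rw [(R2 y a (by linarith)).2] at this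
    rw [(G5 y (by linarith) b).2]; linarith
  have j1 : h t = d - α * t := by rw [hd]; ring
  have j2 : d - α * m = R m := by linarith
  have j6 : c + β * -s = h (-s) := by rw [hc]; ring
  have j3 : R (-s) = k (-s) := by
    have := (R2 (-s) (by linarith) (by linarith)).2
    rw [j6] at this
    exact inv_injective (by linarith)
  have j4 : k t = G t := by
    have := (G5 t t1 (by linarith)).2
    rw [← j1] at this
    exact inv_injective (by linarith)
  have j5 : G m = c + β * m := by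
    have e1 := (G5 m (by linarith) m2.le).2
    have e2 := (R2 m m1.le (by linarith)).2
    rw [j2] at e1
    exact inv_injective (by linarith)
  set H : ℝ → ℝ := fun x => if x ≤ t then h x else if x ≤ m then d - α * x
    else if x ≤ -s then R x else k x with hH
  set K : ℝ → ℝ := fun x => if x ≤ t then k x else if x ≤ m then G x
    else if x ≤ -s then c + β * x else h x with hK
  have A1 : ∀ x, x ≤ t → H x = h x ∧ K x = k x := fun x a => by simp [hH, hK, a]
  have A2 : ∀ x, t ≤ x → x ≤ m → H x = d - α * x ∧ K x = G x := fun x a b => by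
    rcases a.eq_or_lt with rfl | a
    · simp only [hH, hK, le_refl, if_true]; exact ⟨j1, j4⟩
    · simp [hH, hK, b, not_le.2 a]
  have A3 : ∀ x, m ≤ x → x ≤ -s → H x = R x ∧ K x = c + β * x := fun x a b => by
    rcases a.eq_or_lt with rfl | a
    · have := A2 m (by linarith) le_rfl
      rw [this.1, this.2]; exact ⟨j2, j5⟩
    · simp only [hH, hK, b, not_le.2 a, not_le.2 (show t < x by linarith), if_true, if_false,
        and_self]
  have A4 : ∀ x, -s ≤ x → H x = k x ∧ K x = h x := fun x a => by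
    rcases a.eq_or_lt with rfl | a
    · have := A3 (-s) (by linarith) le_rfl
      rw [this.1, this.2]; exact ⟨j3, j6⟩
    · simp only [hH, hK, not_le.2 a, not_le.2 (show t < x by linarith),
        not_le.2 (show m < x by linarith), if_false, and_self]
  have cases4 : ∀ x, x ≤ t ∨ (t ≤ x ∧ x ≤ m) ∨ (m ≤ x ∧ x ≤ -s) ∨ -s ≤ x := by
    intro x
    rcases le_total x t with a | a
    · exact Or.inl a
    rcases le_total x m with b | b
    · exact Or.inr (Or.inl ⟨a, b⟩)
    rcases le_total x (-s) with e | e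
    · exact Or.inr (Or.inr (Or.inl ⟨b, e⟩))
    · exact Or.inr (Or.inr (Or.inr e))
  have hch := n.ch
  have hck := n.ck
  refine ⟨H, K, ?_, ?_, ?_, ?_, ?_, ?_, ?_, fun x a => A1 x (by linarith),
    fun x a => A4 x (by linarith), c, fun x a b => (A3 x (by linarith) (by linarith)).2⟩
  · refine Continuous.if_le hch (Continuous.if_le (by fun_prop) (Continuous.if_le Rc hck
      continuous_id continuous_const ?_) continuous_id continuous_const ?_) continuous_id
      continuous_const ?_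
    · rintro x rfl; exact j3
    · rintro x rfl
      rw [if_pos (by linarith)]; exact j2
    · rintro x rfl
      rw [if_pos (by linarith)]; exact j1
  · refine Continuous.if_le hck (Continuous.if_le Gc (Continuous.if_le (by fun_prop) hch
      continuous_id continuous_const ?_) continuous_id continuous_const ?_) continuous_id
      continuous_const ?_
    · rintro x rfl; exact j6
    · rintro x rfl
      rw [if_pos (by linarith)]; exact j5
    · rintro x rfl
      rw [if_pos (by linarith)]; exact j4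
  · intro x
    rcases lt_or_ge x t with a | a
    · refine (n.gh.ls x).of_le (A1 x a.le).1 ?_
      filter_upwards [Iio_mem_nhds a] with y hy using (A1 y (le_of_lt hy)).1.ge
    rcases le_or_gt x m with b | b
    · refine (LS_affine d (-α) x).of_le (by rw [(A2 x a b).1]; ring) ?_
      filter_upwards [Ioo_mem_nhds (show -1 < x by linarith) (show x < 1 / 4 by linarith)]
        with y hy
      rcases cases4 y with e | e | e | e
      · have := l1 y hy.1.le (by linarith [hy.2]); rw [(A1 y e).1]; linarith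
      · rw [(A2 y e.1 e.2).1]; linarith
      · have := l1R y (by linarith [e.1]) hy.2.le; rw [(A3 y e.1 e.2).1]; linarith
      · linarith [hy.2]
    rcases lt_or_ge x (-s) with f | f
    · refine (R3 x (by linarith) f).of_le (A3 x b.le f.le).1 ?_
      filter_upwards [Ioo_mem_nhds b f] with y hy using (A3 y hy.1.le hy.2.le).1.ge
    · refine (n.gk.ls x).of_le (A4 x f).1 ?_
      filter_upwards [Ioi_mem_nhds b] with y hy
      have hy' : m < y := hy
      rcases le_total y (-s) with e | e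
      · rw [(A3 y hy'.le e).1]; exact kR y (by linarith) (by linarith)
      · exact (A4 y e).1.ge
  · intro x
    rcases le_or_gt x t with a | a
    · refine (n.gk.ls x).of_le (A1 x a).2 ?_
      filter_upwards [Iio_mem_nhds (show x < m by linarith)] with y hy
      have hy' : y < m := hy
      rcases le_total y t with e | e
      · exact (A1 y e).2.ge
      · rw [(A2 y e hy'.le).2]; exact kG y (by linarith) (by linarith)
    rcases lt_or_ge x m with b | b
    · refine (G6 x a (by linarith)).of_le (A2 x a.le b.le).2 ?_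
      filter_upwards [Ioo_mem_nhds a b] with y hy using (A2 y hy.1.le hy.2.le).2.ge
    rcases le_or_gt x (-s) with f | f
    · refine (LS_affine c β x).of_le (A3 x b f).2 ?_
      filter_upwards [Ioo_mem_nhds (show -(1 / 4) < x by linarith) (show x < 1 by linarith)]
        with y hy
      rcases cases4 y with e | e | e | e
      · linarith [hy.1]
      · rw [(A2 y e.1 e.2).2]; exact l2G y hy.1.le (by linarith [e.2])
      · exact (A3 y e.1 e.2).2.ge
      · rw [(A4 y e).2]; exact l2 y (by linarith [hy.1]) hy.2.le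
    · refine (n.gh.ls x).of_le (A4 x f.le).2 ?_
      filter_upwards [Ioi_mem_nhds f] with y hy using (A4 y (le_of_lt hy)).2.ge
  · intro x
    rcases cases4 x with e | e | e | e
    · rw [(A1 x e).1]; exact n.ph x
    · rw [(A2 x e.1 e.2).1]; exact l1p x (by linarith [e.2])
    · rw [(A3 x e.1 e.2).1]; exact (R2 x (by linarith [e.1]) (by linarith [e.2])).1
    · rw [(A4 x e).1]; exact n.pk x
  · intro x
    rcases cases4 x with e | e | e | e
    · rw [(A1 x e).2]; exact n.pk x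
    · rw [(A2 x e.1 e.2).2]; exact (G5 x (by linarith [e.1]) (by linarith [e.2])).1
    · rw [(A3 x e.1 e.2).2]; exact l2p x (by linarith [e.1])
    · rw [(A4 x e).2]; exact n.ph x
  · intro x
    rcases cases4 x with e | e | e | e
    · rw [(A1 x e).1, (A1 x e).2]
    · rw [(A2 x e.1 e.2).1, (A2 x e.1 e.2).2, (G5 x (by linarith [e.1]) (by linarith [e.2])).2]
      ring
    · rw [(A3 x e.1 e.2).1, (A3 x e.1 e.2).2, (R2 x (by linarith [e.1]) (by linarith [e.2])).2]
      ring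
    · rw [(A4 x e).1, (A4 x e).2]; ring

end Pool.Agent.KS6_69.SF
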