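import Pool.Agent.KS6_69.SF.Sec2

set_option autoImplicit false

namespace Pool.Agent.KS6_69.SF

open Filter Topology Set

section General

variable {E : Type*} [NormedAddCommGroup E] [NormedSpace ℝ E]

/-- Local supporting functional. -/
def LS2 (q : E → ℝ) (v : E) : Prop := ∃ φ : E →L[ℝ] ℝ, ∀ᶠ w in 𝓝 v, q v + φ (w - v) ≤ q w

theorem LS2.congr {q q' : E → ℝ} {v : E} (h : LS2 q v) (e : q' =ᶠ[𝓝 v] q) : LS2 q' v := by
  obtain ⟨φ, hφ⟩ := h
  refine ⟨φ, ?_⟩
  filter_upwards [hφ, e] with w a b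
  rw [b, e.eq_of_nhds]; exact a

theorem cvx_of_local [ProperSpace E] {q : E → ℝ} (h0 : q 0 = 0) (hp : ∀ v, 0 ≤ q v)
    (hom : ∀ t : ℝ, 0 < t → ∀ v, q (t • v) = t * q v)
    (hl : ∀ v, v ≠ 0 → ContinuousAt q v ∧ LS2 q v) : Continuous q ∧ ConvexOn ℝ univ q := by
  have hc : Continuous q := by
    rw [continuous_iff_continuousAt]
    intro v
    by_cases hv : v = 0
    · subst hv
      obtain ⟨C, hC⟩ := (isCompact_sphere (0 : E) 1).bddAbove_image (f := q) fun w hw =>
        (hl w (by rintro rfl; simp at hw)).1.continuousWithinAt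
      have hb : ∀ w, q w ≤ C * ‖w‖ := by
        intro w
        by_cases hw : w = 0
        · simp [hw, h0]
        have hn : 0 < ‖w‖ := norm_pos_iff.2 hw
        have h1 : q (‖w‖⁻¹ • w) ≤ C := hC ⟨_, by simp [norm_smul, hn.ne'], rfl⟩
        rw [hom _ (inv_pos.2 hn), inv_mul_le_iff₀ hn] at h1
        linarith
      rw [ContinuousAt, h0]
      refine squeeze_zero hp hb ?_
      have : Continuous fun w : E => C * ‖w‖ := by fun_prop
      simpa using this.tendsto 0
    · exact (hl v hv).1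
  refine ⟨hc, convex_univ, fun u _ w _ a b ha hb hab => ?_⟩
  have hγ : Continuous fun t : ℝ => u + t • (w - u) := by fun_prop
  have key := chord_of_LS (f := fun t => q (u + t • (w - u))) (hc.comp hγ) (fun x => by
    by_cases hv : u + x • (w - u) = 0
    · exact ⟨0, Eventually.of_forall fun y => by simpa [hv, h0] using hp _⟩
    · obtain ⟨φ, hφ⟩ := (hl _ hv).2
      refine ⟨φ (w - u), ?_⟩
      filter_upwards [(hγ.tendsto x).eventually hφ] with y hy
      have : u + y • (w - u) - (u + x • (w - u)) = (y - x) • (w - u) := by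
        rw [sub_smul]; abel
      rw [this, map_smul, smul_eq_mul] at hy
      linarith) hb (by linarith)
  have e1 : a = 1 - b := by linarith
  have e2 : u + b • (w - u) = a • u + b • w := by rw [e1, sub_smul, smul_sub, one_smul]; abel
  simp only [zero_smul, add_zero, one_smul, add_sub_cancel] at key
  rw [e2, ← e1] at key
  exact key

theorem persp {F : ℝ → ℝ} (hF : Continuous F) (hl : ∀ x, LS F x) (X Y : E →L[ℝ] ℝ) {v : E}
    (hv : 0 < Y v) :
    ContinuousAt (fun w => Y w * F (X w / Y w)) v ∧ LS2 (fun w => Y w * F (X w / Y w)) v := by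
  have hd : ContinuousAt (fun w => X w / Y w) v :=
    X.continuous.continuousAt.div Y.continuous.continuousAt hv.ne'
  refine ⟨Y.continuous.continuousAt.mul (hF.continuousAt.comp hd), ?_⟩
  obtain ⟨σ, hσ⟩ := hl (X v / Y v)
  refine ⟨F (X v / Y v) • Y + σ • (X - (X v / Y v) • Y), ?_⟩
  filter_upwards [hd.tendsto.eventually hσ,
    Y.continuous.continuousAt.tendsto.eventually (Ioi_mem_nhds hv)] with w a b
  have b' : 0 < Y w := b
  have := mul_le_mul_of_nonneg_left a b'.le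
  simp only [add_apply, smul_apply, sub_apply, map_sub, smul_eq_mul]
  have e1 : Y w * (X w / Y w) = X w := by field_simp
  have e2 : X v / Y v * Y v = X v := by field_simp
  have e3 : Y w * (F (X v / Y v) + σ * (X w / Y w - X v / Y v)) =
      F (X v / Y v) * Y w + σ * (X w - X v / Y v * Y w) := by linear_combination σ * e1
  rw [e3] at this
  have e4 : Y v * F (X v / Y v) + (F (X v / Y v) * (Y w - Y v) +
      σ * (X w - X v - X v / Y v * (Y w - Y v))) =
      F (X v / Y v) * Y w + σ * (X w - X v / Y v * Y w) := by linear_combination σ * e2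
  linarith

theorem sector {p : E → ℝ} (hom : ∀ t : ℝ, 0 < t → ∀ v, p (t • v) = t * p v)
    (X Y : E →L[ℝ] ℝ) (a b : E) (hab : ∀ v, v = X v • a + Y v • b)
    (e1 : X a = 1) (e2 : X b = 0) (e3 : Y a = 0) (e4 : Y b = 1)
    (n : Near (fun x => p (x • a + b)) (fun x => p (-(x • a + b)))) {β : ℝ}
    (b1 : 12 / 11 - 1 / 10000 ≤ β) (b2 : β ≤ 12 / 11 + 1 / 10000) :
    ∃ q : E → ℝ, (∀ t : ℝ, 0 < t → ∀ v, q (t • v) = t * q v) ∧
      (∃ c : ℝ, ∀ x : ℝ, 1 / 4 ≤ x → x ≤ 9 / 20 → q (-(x • a + b)) = c + β * x) ∧ ∀ v, Y v ≠ 0 →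
      ContinuousAt q v ∧ LS2 q v ∧ 0 < q v ∧ (q v)⁻¹ + (q (-v))⁻¹ = (p v)⁻¹ + (p (-v))⁻¹ ∧
      (X v / Y v ≤ -(3 / 5) → q v = p v) ∧ (3 / 5 ≤ X v / Y v → q v = p (-v)) := by
  obtain ⟨H, K, cH, cK, lH, lK, pH, pK, hs, h1, h2, c, hc⟩ := n.transition b1 b2
  set q : E → ℝ := fun v => if 0 < Y v then Y v * H (X v / Y v) else -Y v * K (X v / Y v) with hq
  have pos : ∀ v, 0 < Y v → q v = Y v * H (X v / Y v) ∧ q (-v) = Y v * K (X v / Y v) ∧
      p v = Y v * p ((X v / Y v) • a + b) ∧ p (-v) = Y v * p (-((X v / Y v) • a + b)) := by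
    intro v hv
    have e : v = Y v • ((X v / Y v) • a + b) := by
      rw [smul_add, smul_smul, mul_div_cancel₀ _ hv.ne']; exact hab v
    refine ⟨by simp [hq, hv], by simp [hq, hv.le, neg_div_neg_eq], ?_, ?_⟩
    · rw [← hom _ hv, ← e]
    · rw [← hom _ hv, smul_neg, ← e]
  refine ⟨q, fun t ht v => ?_, ⟨c, fun x hx hx' => ?_⟩, fun v hv => ?_⟩
  rotate_left
  · have y1 : Y (-(x • a + b)) = -1 := by simp [e3, e4]
    have x1 : X (-(x • a + b)) = -x := by simp [e1, e2]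
    simp only [hq, y1, x1]
    rw [if_neg (by norm_num), neg_neg, one_mul, neg_div_neg_eq, div_one, hc x hx hx']
  rotate_right
  · simp only [hq, map_smul, smul_eq_mul, mul_pos_iff_of_pos_left ht, mul_div_mul_left _ _ ht.ne']
    split_ifs <;> ring
  rcases lt_or_gt_of_ne hv with hv | hv
  · have hv' : 0 < (-Y) v := by simpa using hv
    obtain ⟨c1, c2⟩ := persp cK lK (-X) (-Y) hv'
    have ev : q =ᶠ[𝓝 v] fun w => (-Y) w * K ((-X) w / (-Y) w) := by
      filter_upwards [Y.continuous.continuousAt.tendsto.eventually (Iio_mem_nhds hv)] with w hw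
      have : Y w < 0 := hw
      simp [hq, not_lt.2 this.le, neg_div_neg_eq]
    obtain ⟨e1, e2, e3, e4⟩ := pos (-v) (by simpa using hv)
    simp only [map_neg, neg_neg, neg_div_neg_eq] at e1 e2 e3 e4
    have hy : 0 < -Y v := by linarith
    refine ⟨c1.congr ev.symm, c2.congr ev, by rw [e2]; exact mul_pos hy (pK _), ?_,
      fun h => by rw [e2, e4, (h1 _ h).2], fun h => by rw [e2, e3, (h2 _ h).2]⟩
    have := hs (X v / Y v)
    rw [e1, e2, e3, e4, mul_inv, mul_inv, mul_inv, mul_inv]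
    linear_combination (-Y v)⁻¹ * this
  · obtain ⟨c1, c2⟩ := persp cH lH X Y hv
    have ev : q =ᶠ[𝓝 v] fun w => Y w * H (X w / Y w) := by
      filter_upwards [Y.continuous.continuousAt.tendsto.eventually (Ioi_mem_nhds hv)] with w hw
      have : 0 < Y w := hw
      simp [hq, this]
    obtain ⟨e1, e2, e3, e4⟩ := pos v hv
    refine ⟨c1.congr ev.symm, c2.congr ev, by rw [e1]; exact mul_pos hv (pH _), ?_,
      fun h => by rw [e1, e3, (h1 _ h).1], fun h => by rw [e1, e4, (h2 _ h).1]⟩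
    have := hs (X v / Y v)
    rw [e1, e2, e3, e4, mul_inv, mul_inv, mul_inv, mul_inv]
    linear_combination (Y v)⁻¹ * this

theorem ratio {x y : ℝ} (hy : y ≠ 0) (h : 3 * |y| ≤ 5 * |x|) :
    (x * y ≤ 0 → x / y ≤ -(3 / 5)) ∧ (0 ≤ x * y → 3 / 5 ≤ x / y) := by
  have hy' : 0 < |y| := abs_pos.2 hy
  have h1 : 3 / 5 ≤ |x / y| := by rw [abs_div, le_div_iff₀ hy']; linarith
  have e : x / y = x * y / y ^ 2 := by field_simp
  have hy2 : 0 < y ^ 2 := by positivity
  constructor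
  · intro h2
    have : x / y ≤ 0 := by rw [e]; exact div_nonpos_of_nonpos_of_nonneg h2 hy2.le
    rw [abs_of_nonpos this] at h1; linarith
  · intro h2
    have : 0 ≤ x / y := by rw [e]; positivity
    rwa [abs_of_nonneg this] at h1

theorem plane [ProperSpace E] {p : E → ℝ} (hom : ∀ t : ℝ, 0 < t → ∀ v, p (t • v) = t * p v)
    (X Y : E →L[ℝ] ℝ) (a b : E) (hab : ∀ v, v = X v • a + Y v • b)
    (n1 : Near (fun x => p (x • a + b)) (fun x => p (-(x • a + b))))
    (n2 : Near (fun x => p (x • b + a)) (fun x => p (-(x • b + a))))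
    (e1 : X a = 1) (e2 : X b = 0) (e3 : Y a = 0) (e4 : Y b = 1) {β : ℝ}
    (b1 : 12 / 11 - 1 / 10000 ≤ β) (b2 : β ≤ 12 / 11 + 1 / 10000) :
    ∃ q : E → ℝ, q 0 = 0 ∧ (∀ t : ℝ, 0 < t → ∀ v, q (t • v) = t * q v) ∧ Continuous q ∧
      ConvexOn ℝ univ q ∧ (∀ v, v ≠ 0 → 0 < q v ∧
        (q v)⁻¹ + (q (-v))⁻¹ = (p v)⁻¹ + (p (-v))⁻¹) ∧
      (∀ v, Y v = 1 → (X v = -(3 / 5) → q v = p v) ∧ (X v = 3 / 5 → q v = p (-v))) ∧
      ∃ c : ℝ, ∀ x : ℝ, 1 / 4 ≤ x → x ≤ 9 / 20 → q (-(x • a + b)) = c + β * x := by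
  classical
  obtain ⟨q1, hom1, ⟨c0, hc0⟩, h1⟩ := sector hom X Y a b hab e1 e2 e3 e4 n1 b1 b2
  obtain ⟨q2, hom2, -, h2⟩ := sector hom Y X b a (fun v => by rw [add_comm]; exact hab v)
    e4 e3 e2 e1 n2 b1 b2
  set q : E → ℝ := fun v => if v = 0 then 0 else if |X v| ≤ |Y v| then q1 v else q2 v with hq
  have ov : ∀ v, X v ≠ 0 → Y v ≠ 0 → 3 * |Y v| ≤ 5 * |X v| → 3 * |X v| ≤ 5 * |Y v| →
      q1 v = q2 v := by
    intro v hx hy e1 e2
    rcases le_total (X v * Y v) 0 with h | h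
    · rw [(h1 v hy).2.2.2.2.1 ((ratio hy e1).1 h),
        (h2 v hx).2.2.2.2.1 ((ratio hx e2).1 (by linarith))]
    · rw [(h1 v hy).2.2.2.2.2 ((ratio hy e1).2 h),
        (h2 v hx).2.2.2.2.2 ((ratio hx e2).2 (by linarith))]
  have g1 : ∀ v, 3 * |X v| < 5 * |Y v| → Y v ≠ 0 ∧ q v = q1 v := by
    intro v h
    have hy : Y v ≠ 0 := by
      intro e; rw [e] at h; simp at h; linarith [abs_nonneg (X v)]
    have hv : v ≠ 0 := by rintro rfl; simp at hy
    refine ⟨hy, ?_⟩
    simp only [hq, hv, if_false]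
    split_ifs with e
    · rfl
    · push Not at e
      have := abs_nonneg (Y v)
      exact (ov v (abs_pos.1 (by linarith)) hy (by linarith) h.le).symm
  have g2 : ∀ v, 3 * |Y v| < 5 * |X v| → X v ≠ 0 ∧ q v = q2 v := by
    intro v h
    have hx : X v ≠ 0 := by
      intro e; rw [e] at h; simp at h; linarith [abs_nonneg (Y v)]
    have hv : v ≠ 0 := by rintro rfl; simp at hx
    refine ⟨hx, ?_⟩
    simp only [hq, hv, if_false]
    split_ifs with e
    · have := abs_pos.2 hx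
      exact ov v hx (abs_pos.1 (by linarith)) h.le (by linarith)
    · rfl
  have cov : ∀ v, v ≠ 0 → 3 * |X v| < 5 * |Y v| ∨ 3 * |Y v| < 5 * |X v| := by
    intro v hv
    by_contra hc
    push Not at hc
    have a1 := abs_nonneg (X v)
    have a2 := abs_nonneg (Y v)
    have e1 : X v = 0 := abs_eq_zero.1 (by linarith [hc.1, hc.2])
    have e2 : Y v = 0 := abs_eq_zero.1 (by linarith [hc.1, hc.2])
    exact hv (by rw [hab v, e1, e2]; simp)
  have main : ∀ v, v ≠ 0 → (ContinuousAt q v ∧ LS2 q v) ∧ 0 < q v ∧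
      (q v)⁻¹ + (q (-v))⁻¹ = (p v)⁻¹ + (p (-v))⁻¹ := by
    intro v hv
    rcases cov v hv with h | h
    · have ev : q =ᶠ[𝓝 v] q1 := by
        have : IsOpen {w | 3 * |X w| < 5 * |Y w|} := isOpen_lt (by fun_prop) (by fun_prop)
        filter_upwards [this.mem_nhds h] with w hw using (g1 w hw).2
      obtain ⟨c1, c2, c3, c4, -⟩ := h1 v (g1 v h).1
      refine ⟨⟨c1.congr ev.symm, c2.congr ev⟩, by rw [(g1 v h).2]; exact c3, ?_⟩
      rw [(g1 v h).2, (g1 (-v) (by simpa using h)).2, c4]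
    · have ev : q =ᶠ[𝓝 v] q2 := by
        have : IsOpen {w | 3 * |Y w| < 5 * |X w|} := isOpen_lt (by fun_prop) (by fun_prop)
        filter_upwards [this.mem_nhds h] with w hw using (g2 w hw).2
      obtain ⟨c1, c2, c3, c4, -⟩ := h2 v (g2 v h).1
      refine ⟨⟨c1.congr ev.symm, c2.congr ev⟩, by rw [(g2 v h).2]; exact c3, ?_⟩
      rw [(g2 v h).2, (g2 (-v) (by simpa using h)).2, c4]
  have q0 : q 0 = 0 := by simp [hq]
  have homq : ∀ t : ℝ, 0 < t → ∀ v, q (t • v) = t * q v := by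
    intro t ht v
    simp only [hq, smul_eq_zero, ht.ne', false_or, map_smul, smul_eq_mul, abs_mul, abs_of_pos ht,
      mul_le_mul_iff_right₀ ht, hom1 t ht, hom2 t ht]
    split_ifs <;> simp
  obtain ⟨c1, c2⟩ := cvx_of_local q0 (fun v => by
    by_cases hv : v = 0
    · rw [hv, q0]
    · exact (main v hv).2.1.le) homq fun v hv => (main v hv).1
  refine ⟨q, q0, homq, c1, c2, fun v hv => (main v hv).2, fun v hy => ⟨fun hx => ?_, fun hx => ?_⟩,
    c0, fun x hx hx' => ?_⟩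
  rotate_right
  · have y1 : Y (-(x • a + b)) = -1 := by simp [e3, e4]
    have x1 : X (-(x • a + b)) = -x := by simp [e1, e2]
    rw [(g1 _ (by rw [x1, y1, abs_neg, abs_neg, abs_one, abs_of_nonneg (by linarith)]; linarith)).2,
      hc0 x hx hx']
  · have := g1 v (by rw [hx, hy]; norm_num [abs_of_pos])
    rw [this.2]
    exact (h1 v this.1).2.2.2.2.1 (by rw [hx, hy]; norm_num)
  · have := g1 v (by rw [hx, hy]; norm_num [abs_of_pos])
    rw [this.2]
    exact (h1 v this.1).2.2.2.2.2 (by rw [hx, hy]; norm_num)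

theorem section_eq {q : E → ℝ} (h0 : q 0 = 0) (hom : ∀ t : ℝ, 0 < t → ∀ v, q (t • v) = t * q v)
    {u : E} (h1 : 0 < q u) (h2 : 0 < q (-u)) (S : Set E) (hS : ∀ v, v ∈ S ↔ ∃ c : ℝ, c • u = v) :
    {v | q v ≤ 1} ∩ S = segment ℝ ((-(q (-u))⁻¹) • u) ((q u)⁻¹ • u) := by
  have e := image_segment ℝ (LinearMap.toSpanSingleton ℝ E u).toAffineMap (-(q (-u))⁻¹) (q u)⁻¹
  simp only [LinearMap.coe_toAffineMap, LinearMap.toSpanSingleton_apply] at e
  have i1 := inv_pos.2 h1
  have i2 := inv_pos.2 h2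
  rw [← e, segment_eq_Icc (by linarith)]
  have key : ∀ c : ℝ, q (c • u) ≤ 1 ↔ c ∈ Icc (-(q (-u))⁻¹) (q u)⁻¹ := by
    intro c
    rcases lt_trichotomy c 0 with h | h | h
    · rw [show c • u = (-c) • (-u) by simp, hom _ (by linarith), mem_Icc, neg_le,
        ← le_div_iff₀ h2, one_div]
      exact ⟨fun a => ⟨a, by linarith⟩, fun a => a.1⟩
    · subst h
      simp [h0, h1.le, h2.le]
    · rw [hom _ h, mem_Icc, ← le_div_iff₀ h1, one_div]
      exact ⟨fun a => ⟨by linarith, a⟩, fun a => a.2⟩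
  ext v
  constructor
  · rintro ⟨a, b⟩
    obtain ⟨c, rfl⟩ := (hS v).1 b
    exact ⟨c, (key c).1 a, rfl⟩
  · rintro ⟨c, hc, rfl⟩
    exact ⟨(key c).2 hc, (hS _).2 ⟨c, rfl⟩⟩

theorem complete_body [CompleteSpace E] : CompleteSpace (ConvexBody E) := by
  let f : ConvexBody E → TopologicalSpace.NonemptyCompacts E := fun K =>
    ⟨⟨K, K.isCompact⟩, K.nonempty⟩
  have hf : Isometry f := Isometry.of_dist_eq fun K L => by
    rw [Metric.NonemptyCompacts.dist_eq]; rfl
  refine (completeSpace_iff_isComplete_range hf.isUniformInducing).2 (IsClosed.isComplete ?_)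
  refine isClosed_of_closure_subset fun T hT => ?_
  have hc : Convex ℝ (T : Set E) := by
    intro x hx y hy a b ha hb hab
    rw [← T.isCompact.isClosed.closure_eq, Metric.mem_closure_iff]
    intro ε hε
    obtain ⟨_, ⟨K, rfl⟩, hK⟩ := Metric.mem_closure_iff.1 hT (ε / 2) (by linarith)
    rw [Metric.NonemptyCompacts.dist_eq] at hK
    have fin : Metric.hausdorffEDist (T : Set E) (f K : Set E) ≠ ⊤ :=
      Metric.hausdorffEDist_ne_top_of_nonempty_of_bounded T.nonempty K.nonempty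
        T.isCompact.isBounded K.isBounded
    have h1 : (T : Set E) ⊆ Metric.thickening (ε / 2) (K : Set E) := fun z hz =>
      Metric.mem_thickening_iff.2 (Metric.exists_dist_lt_of_hausdorffDist_lt hz hK fin)
    obtain ⟨z, hz, hz'⟩ := Metric.mem_thickening_iff.1
      (K.convex.thickening (ε / 2) (h1 hx) (h1 hy) ha hb hab)
    obtain ⟨w, hw, hw'⟩ := Metric.exists_dist_lt_of_hausdorffDist_lt' (y := z) hz hK fin
    refine ⟨w, hw, ?_⟩
    have := dist_triangle (a • x + b • y) z w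
    rw [dist_comm z w] at this
    linarith
  exact ⟨⟨T, hc, T.isCompact, T.nonempty⟩, rfl⟩

end General

end Pool.Agent.KS6_69.SF
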